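import Pool.Agent.D0H34.KC.Fin2
import Pool.Agent.D0H89.KC.Prm3
import Pool.Agent.D0H49.KC.Spl
import Pool.Agent.D0H50.KC.Gp
import Pool.Agent.D0H51.KC.G2
import Pool.Agent.D0H20.KC.Gq
import Pool.Agent.D0H12.KC.Gw
import Pool.Agent.D0H12.KC.Num2
import Pool.Agent.D0H42.KC3.Ep
import Pool.Agent.D0H82.KC.Tt
import Pool.Agent.D0H22.KC.Sw
import Pool.Agent.D0H49.KC.Cpx
import Pool.Agent.D0H56.KC.Plc
import Pool.Agent.D0H16.KC.Loc
import Pool.Agent.D0H74.KC.Fib
import Pool.Agent.D0H77.KC.Idl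
import Pool.Agent.D0H19.KG.Cls

/-!
# Many `S_n`-fields of every degree with large `m`-rank of the class group

For `n`, `m ≥ 2` and `r ≤ n/2 - 2` we count the number fields `L` of degree `n` with Galois group `S_n` (so without
intermediate fields), at most one real place, `|disc L| ≤ X`, whose class group contains `(ℤ/m)^r`. Infinitely many fields
of degree `n` with `(ℤ/m)^(r₂)` in the class group are known (Azuhata and Ichimura, Nakano); the known lower bounds for
the number of such fields have exponents which tend to `0` when `m` or `n` grows (`X ^ (1/(2m(n-1)))`, Bilu and Luca, for `m ∣ h`;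
`X ^ (1/(m(n-1)))` in `ManyDiscriminants` of this pool). Here the exponent does not depend on `m` and tends to `1/8` as `n → ∞`:
with `d = ⌊n/2⌋ - r ≥ 2` it is `(d-2)(d+1)/(2n(n-1))`, which is larger than `1/8 - (r+1)/(2n)`.
For `r = ρ n` the exponent tends to `(1/2 - ρ)^2/2`.

Outline. `k = n - d = ⌈n/2⌉ + r`, `f = (x - a_1) ⋯ (x - a_k) g + w^(s m)` with a fixed prime `w`, `(10 H)^n < w^(s m) ≤ (K H)^n`,
integers `|a_i| ≤ H` in fixed residue classes modulo a fixed `M`, and `g` monic of degree `d` with coefficients `0 ≤ g_j ≤ H^(d-j)` in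
residue classes modulo `M`. `f` has at most one real root and all its roots are `≤ 4 K H` in absolute value. In `L = ℚ(θ)`,
`f(θ) = 0`, there are `⌈n/2⌉ - 1` fundamental units, `(θ - a_i)` is the `m`-th power of an ideal, and the `θ - a_i` are
independent modulo `ℓ`-th powers for every prime `ℓ ∣ m`, because modulo suitable primes `q_i` (where `0` is a simple root
of `f`) all `-a_j`, `j ≠ i`, are `1` and `-a_i` is a primitive root. The group is `S_n` because of three more primes: `f` is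
Eisenstein at `p`, `f ≡ x^(n-1)(x-1)` modulo `p₂` and `f ≡ x²(x^(n-2)-1)` modulo `p₃`, with `f(0)` exactly divisible by `p₂`, `p₃`
(the polynomials `x^n - x^(n-1) - 1` and `x^n - x² - 1` split modulo `p₂`, `p₃`). There are `≫ H^(k + d(d+1)/2)` polynomials, at most
`(C H)^(n+1)` of them belong to one field, and `|disc L| ≤ (C H)^(n(n-1))`.

Project KC: helper34 with helper89 and helper70 (PRM), helper49 (SPL, CPX, TT), helper50 (GP), helper51 (G2, TT),
helper20 (GQ), helper12 (GW, NUM2), helper42 (EP), helper82, helper3 (TT), helper22 (SW), helper16 (LOC), helper56 (PLC, NUM),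
helper74 (FIB), helper77 (IDL), helper19 (CLS).
-/

set_option autoImplicit false

open NumberField

namespace Pool.Agent.Results.MP_176ace_nt.EveryDegree

open Pool.Agent.D0H34.KC

/-- Many `S_n`-fields of every degree with large `m`-rank; see the header. `Cnt n m r X` is the set of all subfields `L` of the algebraic
closure of `ℚ` of degree `n` with `|disc L| ≤ X`, at most one real place, and a subgroup `(ℤ/m)^r` in the class group
(`HasCl L m r`); `CntQ Sym n m r X` is the set of those `L` in it with `Sym L`: every permutation of the embeddings of `L` is induced by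
an automorphism of the algebraic closure (Galois group `S_n`). `n / 2` is the integer quotient. -/
theorem result (n m r : ℕ) (hm : 2 ≤ m) (hr : r + 2 ≤ n / 2) :
    (∃ c : ℝ, 0 < c ∧ ∃ X₀ : ℝ, ∀ X : ℝ, X₀ ≤ X → (CntQ Pool.Agent.D0H15.SK.Sym n m r X).Finite ∧
      c * X ^ (((((n / 2 - r : ℕ) : ℝ) - 2) * (((n / 2 - r : ℕ) : ℝ) + 1)) / (2 * n * (n - 1))) ≤
        ((CntQ Pool.Agent.D0H15.SK.Sym n m r X).ncard : ℝ)) ∧
    (1 ≤ r → ∃ X₀ : ℝ, ∀ X : ℝ, X₀ ≤ X →
      X ^ ((1 : ℝ) / 8 - (r + 1) / (2 * n)) ≤ ((CntQ Pool.Agent.D0H15.SK.Sym n m r X).ncard : ℝ)) :=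
  main2 (Pool.Agent.D0H89.KC.t_PRM3 Pool.Agent.D0H49.KC.t_SPL) Pool.Agent.D0H50.KC.t_GP Pool.Agent.D0H51.KC.t_G2
    Pool.Agent.D0H20.KC.t_GQ Pool.Agent.D0H12.KCQ.t_GW Pool.Agent.D0H12.KCQ.t_NUM2 Pool.Agent.D0H19.KG.t_CLS
    Pool.Agent.D0H16.KC.t_LOC Pool.Agent.D0H56.KC.t_PLC Pool.Agent.D0H77.KC.t_IDL Pool.Agent.D0H49.KC.t_CPX
    Pool.Agent.D0H74.KC.t_FIB Pool.Agent.D0H42.KC.t_EP Pool.Agent.D0H82.KC.t_TT Pool.Agent.D0H22.KC.t_SW n m r hm hr

end Pool.Agent.Results.MP_176ace_nt.EveryDegree
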