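import Pool.Agent.D0H5.CGX.Sig
import Pool.Agent.D0H85.CG.FamB
import Pool.Agent.D0H85.CG.CntB
import Pool.Agent.D0H85.CG.SgDat

/-!
# Counting the fields whose class groups have large `m`-rank

The fields are `ℚ(θ)`, `L A(θ) + s ^ m = 0`, `L c = t ^ m - s ^ m`, with the polynomials `A` of the
earlier results. Their discriminants are at most a constant times `s ^ (2 m (n - 1))`
(`D0H85/CG/Disc`, with an explicit basis of integral elements), and a prime which divides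
`t ^ m - s ^ m` exactly once and not `c s` divides the discriminant. For any two different large
primes `q`, `g` of the same size, `g ≡ 1` modulo `m`, there are admissible `s` and `t` of this size
for which `q` divides `t - s` and `g` divides `(t ^ m - s ^ m) / (t - s)`, each exactly once
(`selB` in `D0H85/CG/SelC`). A discriminant determines `q` and `g` up to a bounded number of
possibilities, so that the number of different discriminants is at least a constant times the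
number of pairs of primes.
-/

set_option autoImplicit false

namespace Pool.Agent.Results.MP_176ace_nt.ManyDiscriminants

open NumberField Pool.Agent.W289.CG Pool.Agent.N53.CL Pool.Agent.D0H85.CG

/-- The discriminants of absolute value at most `X` of the number fields `K` of degree `n` and
signature `(r₁, r₂)` whose class group contains `(ℤ/m)^(r₂+κ)` and `(ℤ/n)^R`, in which every prime
of `S` splits completely and every prime of `T` is totally ramified. -/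
def Discs (n r₁ r₂ κ m R : ℕ) (S T : Finset ℕ) (X : ℝ) : Set ℤ :=
  {d : ℤ | (∃ (K : Type) (_ : Field K) (_ : NumberField K), discr K = d ∧
      Module.finrank ℚ K = n ∧
      InfinitePlace.nrRealPlaces K = r₁ ∧ InfinitePlace.nrComplexPlaces K = r₂ ∧
      (∃ f : Multiplicative (Fin (r₂ + κ) → ZMod m) →* ClassGroup (𝓞 K), Function.Injective f) ∧
      (∃ f : Multiplicative (Fin R → ZMod n) →* ClassGroup (𝓞 K), Function.Injective f) ∧
      (∀ p ∈ S, ∃ P : Fin n → Ideal (𝓞 K), Function.Injective P ∧ (∀ i, (P i).IsPrime) ∧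
        ∏ i, P i = Ideal.span {(p : 𝓞 K)}) ∧
      ∀ q ∈ T, ∃ P : Ideal (𝓞 K), P.IsPrime ∧ P ^ n = Ideal.span {(q : 𝓞 K)}) ∧ |(d : ℝ)| ≤ X}

/-- For all `m ≥ 2` and `R` and all disjoint finite sets `S`, `T` of primes outside a finite set
which depends only on `n`, `r₁`, `r₂`, `κ` (those of `T` not dividing `m`) there are for all large
`X` at least `c X ^ (1 / (m (n - 1))) / (log X) ^ 2` different such discriminants, with some
`c > 0`. -/
def Many (n r₁ r₂ κ : ℕ) : Prop :=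
  ∃ Z : ℕ, 0 < Z ∧ ∀ m R : ℕ, 2 ≤ m → ∀ S T : Finset ℕ,
    (∀ p ∈ S, p.Prime ∧ ¬ p ∣ Z) → (∀ q ∈ T, q.Prime ∧ ¬ q ∣ Z ∧ ¬ q ∣ m) → Disjoint S T →
    ∃ c X₀ : ℝ, 0 < c ∧ ∀ X : ℝ, X₀ ≤ X →
      c * X ^ (1 / ((m : ℝ) * ((n : ℝ) - 1))) / (Real.log X) ^ 2 ≤
        ((Discs n r₁ r₂ κ m R S T X).ncard : ℝ)

theorem many_of_data {n k κ r₁ r₂ : ℕ} (hn : 3 ≤ n) (hk : 1 ≤ k) (hκ : κ ≤ k)
    (hr : r₁ + 2 * r₂ = n)
    (D : Dat n k) (v₁ v₂ : ℝ) (h₁ : 0 < v₁) (h₁₂ : v₁ < v₂) (hcount : ∀ v, v₁ < v → v < v₂ →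
      {X : ℝ | ∏ i, (X - (D.a i : ℝ)) = - v}.ncard = r₁) : Many n r₁ r₂ κ := by
  have hZ0 : D.c * |D.bad| ≠ 0 := (mul_pos D.hc (abs_pos.2 (bad_ne D))).ne'
  refine ⟨(D.c * |D.bad|).natAbs, Int.natAbs_pos.2 hZ0, fun m R hm S T hS hT hST => ?_⟩
  have hn1 : ((n - 1 : ℕ) : ℝ) = n - 1 := by rw [Nat.cast_sub (by omega)]; norm_num
  obtain ⟨Q₀, C, hfam⟩ :=
    famB_both (by omega) hk D r₁ v₁ v₂ h₁ h₁₂ hcount m R hm S T
      (fun p hp => ⟨(hS p hp).1, fun h => (hS p hp).2 (Int.natCast_dvd.1 h)⟩)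
      (fun q hq => ⟨(hT q hq).1, fun h => (hT q hq).2.1 (Int.natCast_dvd.1 h)⟩) hST
      (fun q hq => (hT q hq).2.2)
  obtain ⟨c, X₀, hc, hX₀⟩ := countB (2 * m * (n - 1)) m
    (Nat.mul_pos (by omega) (by omega)) (by omega) C Q₀
    {d : ℤ | ∃ (K : Type) (_ : Field K) (_ : NumberField K), discr K = d ∧
      Module.finrank ℚ K = n ∧
      InfinitePlace.nrRealPlaces K = r₁ ∧ InfinitePlace.nrComplexPlaces K = r₂ ∧
      (∃ f : Multiplicative (Fin (r₂ + κ) → ZMod m) →* ClassGroup (𝓞 K), Function.Injective f) ∧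
      (∃ f : Multiplicative (Fin R → ZMod n) →* ClassGroup (𝓞 K), Function.Injective f) ∧
      (∀ p ∈ S, ∃ P : Fin n → Ideal (𝓞 K), Function.Injective P ∧ (∀ i, (P i).IsPrime) ∧
        ∏ i, P i = Ideal.span {(p : 𝓞 K)}) ∧
      ∀ q ∈ T, ∃ P : Ideal (𝓞 K), P.IsPrime ∧ P ^ n = Ideal.span {(q : 𝓞 K)}} (by
    intro q g hq hg hqQ hgQ hqg hgm hgq
    obtain ⟨K, hK1, hK2, hfr, hreal, ⟨hqd, hgd, hdisc⟩, hspl, hram, hcl, hR⟩ :=
      hfam q g hq hg hqQ hgQ hqg hgm hgq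
    have h8 := InfinitePlace.card_add_two_mul_card_eq_rank K
    have h7 := rank_eq K
    exact ⟨discr K, ⟨K, hK1, hK2, rfl, hfr, hreal, by omega, hcl (r₂ + κ) (by omega), hR, hspl,
      hram⟩, discr_ne_zero K, hqd, hgd, hdisc⟩)
  refine ⟨c, X₀, hc, fun X hX => ?_⟩
  have h9 : 2 / (((2 * m * (n - 1) : ℕ)) : ℝ) = 1 / ((m : ℝ) * ((n : ℝ) - 1)) := by
    push_cast
    rw [hn1]
    have h1 : (0 : ℝ) < m := by exact_mod_cast (by omega : 0 < m)
    have h2 : (0 : ℝ) < (n : ℝ) - 1 := by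
      rw [← hn1]
      exact_mod_cast (by omega : 0 < n - 1)
    field_simp
  have h10 := hX₀ X hX
  rw [h9] at h10
  exact h10

theorem one_signature (κ r₁ : ℕ) : ∃ n₀ : ℕ, ∀ n r₂ : ℕ, n₀ ≤ n → r₁ + 2 * r₂ = n →
    ∃ (D : Dat n (κ + 2)) (v₁ v₂ : ℝ), 0 < v₁ ∧ v₁ < v₂ ∧ ∀ v, v₁ < v → v < v₂ →
      {X : ℝ | ∏ i, (X - (D.a i : ℝ)) = - v}.ncard = r₁ := by
  rcases Nat.eq_zero_or_pos r₁ with h0 | h0
  · subst h0
    obtain ⟨n₀, hn₀⟩ := Pool.Agent.D0H5.CGX.exists_dat (κ + 2) (by omega)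
    refine ⟨n₀ + 3, fun n r₂ hn hr => ?_⟩
    obtain ⟨D⟩ := hn₀ n (by omega)
    exact ⟨D, data_ext (by omega) D 0 r₂ hr (by omega)⟩
  · obtain ⟨n₀, hn₀⟩ := Pool.Agent.D0H5.CGX.exists_dat_wide (κ + 2) (by omega) r₁ h0
    refine ⟨n₀, fun n r₂ hn hr => ?_⟩
    exact hn₀ n hn ⟨r₂, by omega⟩

/-- **Many fields.** (1) Every degree `n ≥ 3` and every signature `(r₁, r₂)`, with `κ = 2`, and, if
`r₁ ≤ 1` or `r₂ = 0`, with `κ = n - 1` for `n ≤ 10` and `n = 12`, `κ = 4` for odd `n` with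
`11 ≤ n ≤ 27`, and `κ = 6` for all other `n`. (2) Every signature of every degree `n` from `4` to
`30`, with `κ = excess n r₁` (`n - 1` for `n ≤ 7` and `n = 9`, at least `4` for `n ≥ 5`). (3) For all
`κ`, `ρ` every signature with `r₁ ≤ ρ` or `r₂ = 0` of every degree `n ≥ n₀(κ, ρ)`. -/
theorem result :
    (∀ n r₁ r₂ κ : ℕ, 3 ≤ n → r₁ + 2 * r₂ = n → κ = (if r₁ ≤ 1 ∨ r₂ = 0 then
        (if n ≤ 10 ∨ n = 12 then n - 1 else if n % 2 = 0 ∨ 29 ≤ n then 6 else 4) else 2) →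
      Many n r₁ r₂ κ) ∧
    (∀ n r₁ r₂ : ℕ, 4 ≤ n → n ≤ 30 → r₁ + 2 * r₂ = n →
      Many n r₁ r₂ (Pool.Agent.N855.SG.excess n r₁)) ∧
    ∀ κ ρ : ℕ, ∃ n₀ : ℕ, ∀ n r₁ r₂ : ℕ, n₀ ≤ n → r₁ + 2 * r₂ = n → (r₁ ≤ ρ ∨ r₂ = 0) →
      Many n r₁ r₂ κ := by
  refine ⟨fun n r₁ r₂ κ hn hr hκ => ?_, fun n r₁ r₂ hn hn' hr => ?_, fun κ ρ => ?_⟩
  · by_cases h : r₁ ≤ 1 ∨ r₂ = 0
    · rw [hκ, if_pos h]
      obtain ⟨D⟩ := dat_kap n hn
      obtain ⟨v₁, v₂, h1, h2, h3⟩ := data_ext (by omega) D r₁ r₂ hr (by omega)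
      have hk : 1 ≤ kap n := by
        rw [kap]
        split_ifs <;> omega
      have h4 := many_of_data hn hk le_rfl hr D v₁ v₂ h1 h2 h3
      rw [kap] at h4
      exact h4
    · rw [hκ, if_neg h]
      obtain ⟨D, v₁, v₂, h1, h2, h3⟩ := data_all n r₁ r₂ hn hr
      exact many_of_data hn (by norm_num) le_rfl hr D v₁ v₂ h1 h2 h3
  · obtain ⟨k, D, v₁, v₂, h1, h2, h3, h4, h5⟩ := has_all n r₁ r₂ hn hn' hr
    exact many_of_data (by omega) h2 h1 hr D v₁ v₂ h3 h4 h5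
  · obtain ⟨n₀, hn₀⟩ := Pool.Agent.D0H5.CGX.exists_dat (κ + 2) (by omega)
    choose f hf using one_signature κ
    refine ⟨n₀ + 3 + ∑ r₁ ∈ Finset.range (ρ + 1), f r₁, fun n r₁ r₂ hn hr h => ?_⟩
    rcases h with h | h
    · have h1 : f r₁ ≤ ∑ r₁ ∈ Finset.range (ρ + 1), f r₁ :=
        Finset.single_le_sum (f := f) (fun _ _ => Nat.zero_le _) (Finset.mem_range.2 (by omega))
      obtain ⟨D, v₁, v₂, h2, h3, h4⟩ := hf r₁ n r₂ (by omega) hr
      exact many_of_data (by omega) (by omega) (by omega) hr D v₁ v₂ h2 h3 h4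
    · obtain ⟨D⟩ := hn₀ n (by omega)
      obtain ⟨v₁, v₂, h1, h2, h3⟩ := data_ext (by omega) D r₁ r₂ hr (by omega)
      exact many_of_data (by omega) (by omega) (by omega) hr D v₁ v₂ h1 h2 h3

end Pool.Agent.Results.MP_176ace_nt.ManyDiscriminants
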