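import Pool.Agent.D0H34.KG.Fin

/-!
# Many fields of a given degree with large `m`-rank and arbitrarily large `n`-rank of the class group

The question asks for fields of fixed degree `d` with unbounded `m`-rank of the class group. Here we count fields
with large class groups, ordered by the discriminant. The number of all fields of degree `n` with group `S_n` and
discriminant at most `X` is conjecturally of order `X`; the best lower bounds have the exponents
`1/2 + 1/(n-1)` (Bhargava, Shankar, Wang) and `1/2 + 4/(3n) - O((log n)^2/n^2)` (for large `n`; this pool,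
`MP_af4c59_nt.SymmetricGroupLowerBound`, `MP_bf81c2_nt.SymmetricExtensions`). For fields with an element of order
`m` in the class group, or with `m`-rank larger than the number of complex places, the known lower bounds are
`X ^ (1/(2m(n-1)))` (Bilu, Luca) and `X ^ (1/(m(n-1)))` (`ManyDiscriminants`).

We prove: (1) for all `n ≥ n₀`, all number fields `K`, all `m` prime to `n` with `(ℤ/m)^r ⊂ Cl(K)` and all `R` there
are at least `X ^ (1/2 + 4/(3n) - 16 (log n)^2/n^2)` extensions `L/K` of degree `n` with group `S_n` and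
`|disc L| ≤ X` whose class group contains `(ℤ/m)^r` and `(ℤ/n)^R`.
(2) for all `κ` there is `k₀` such that for `k ≥ k₀`, `n ≥ n₀`, `m ≥ 2` prime to `n` and all `R` there are at least
`X ^ (1/2 + 4/(3n) - 16 (log n)^2/n^2)` number fields of degree `kn` with `|disc| ≤ X` whose class group contains
`(ℤ/m)^(⌊k/2⌋ + κ)` and `(ℤ/n)^R`.

Outline. In the family of polynomials `f` of `SymmetricExtensions` (over `K`) we impose `f ≡ x^n + Q` modulo `Q^2`, where
`Q = q_1 ⋯ q_N` is a product of rational primes unramified in `K`. Then `(q_j, θ)^n = (q_j)` in `L = K(θ)`. A relation between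
the classes of the ideals `(q_j, θ)^(n/ℓ)` gives `∏ q_j^(e_j) = ε y^ℓ` in `L` with a unit `ε`; there are at most
`ℓ^(rank + 1)` classes of units, and if `∏ q_j^(e_j) = y^ℓ` then `y ∈ K`, because `L/K` has group `S_n`, `n ≥ 4` (otherwise an
even permutation of the conjugates fixes an `ℓ`-th root of unity `≠ 1` but moves `y`), and `ℓ ∣ e_j` by the unramified
primes. So `(ℤ/n)^R ⊂ Cl(L)` if `N ≥ R + [L : ℚ]`. The `m`-part of `Cl(K)` embeds in `Cl(L)` by the relative norm.
For (2) the base fields are those of `UnboundedExcess`.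

Project KG: helper34 with helper19 (CLS), helper20 (ROOT), helper49 (UNR), helper58 (BASE); the engine is project
SF/SFK (helper41, helper15, helper25, helper42, helper52, helper65, helper87) in the form of helper64
(`SymmetricWreathLowerBound`); base fields: helper5.
-/

set_option autoImplicit false

open NumberField

namespace Pool.Agent.Results.MP_176ace_nt.ManyFields

open Pool.Agent.D0H34.KG

/-- Many fields with large class groups; see the header. `HasCl F m R`: the class group of `F` contains `(ℤ/m)^R`;
`RelF K n m r R X`: the extensions `L` of `K` of degree `n` (in the algebraic closure) with Galois group `S_n`,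
`|disc L| ≤ X`, `HasCl L m r` and `HasCl L n R`; `AbsF d m r n R X`: the subfields `L` of the algebraic closure of `ℚ` of degree
`d` with `|disc L| ≤ X`, `HasCl L m r` and `HasCl L n R`. -/
theorem result : ∃ n₀ : ℕ,
    (∀ n : ℕ, n₀ ≤ n → ∀ (K : Type) [Field K] [NumberField K] (m r R : ℕ),
      Nat.Coprime m n → HasCl K m r → ∃ X₀ : ℝ, ∀ X : ℝ, X₀ ≤ X →
      (RelF K n m r R X).Finite ∧
      X ^ ((1 : ℝ) / 2 + 4 / (3 * n) - 16 * (Real.log n) ^ 2 / (n : ℝ) ^ 2) ≤ ((RelF K n m r R X).ncard : ℝ)) ∧
    ∀ κ : ℕ, ∃ k₀ : ℕ, ∀ n k m R : ℕ, n₀ ≤ n → k₀ ≤ k → 2 ≤ m → Nat.Coprime m n →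
      ∃ X₀ : ℝ, ∀ X : ℝ, X₀ ≤ X →
      (AbsF (k * n) m (k / 2 + κ) n R X).Finite ∧
      X ^ ((1 : ℝ) / 2 + 4 / (3 * n) - 16 * (Real.log n) ^ 2 / (n : ℝ) ^ 2) ≤
        ((AbsF (k * n) m (k / 2 + κ) n R X).ncard : ℝ) :=
  final

end Pool.Agent.Results.MP_176ace_nt.ManyFields
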